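import Pool.Agent.L0h99.MN.Stm2

/-!
# Project MD (helper99): the module CTE, by helper60

The number of the edges of a contraction.
-/

set_option autoImplicit false
set_option linter.all false

namespace Pool.Agent.L0h60.MD

open Finset Pool.Agent.L0h99.MN Pool.Agent.L0h99.MD

section

variable {V : Type} [Fintype V] [DecidableEq V] {G : SimpleGraph V} {x y : V}

theorem ct_adj {a b : {z : V // z ≠ y}} : (ct G x y).Adj a b ↔
    a ≠ b ∧ (G.Adj a.1 b.1 ∨ (a.1 = x ∧ G.Adj y b.1) ∨ (b.1 = x ∧ G.Adj y a.1)) := Iff.rfl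

theorem card_x (h : G.Adj x y) : ((N (ct G x y) ⟨x, h.ne⟩).card : ℤ) =
    (N G x).card + (N G y).card - 2 - (N G x ∩ N G y).card := by
  have e : (N (ct G x y) ⟨x, h.ne⟩).image Subtype.val = ((N G x).erase y) ∪ ((N G y).erase x) := by
    ext z
    rw [mem_image, mem_union, mem_erase, mem_erase, mem_N, mem_N]
    constructor
    · rintro ⟨w, hw, rfl⟩
      rw [mem_N, ct_adj] at hw
      obtain ⟨h1, h2 | ⟨_, h2⟩ | ⟨h2, h3⟩⟩ := hw
      · exact Or.inl ⟨w.2, h2⟩
      · exact Or.inr ⟨fun h4 => h1 (Subtype.ext h4.symm), h2⟩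
      · exact absurd (Subtype.ext h2.symm) h1
    · rintro (⟨h1, h2⟩ | ⟨h1, h2⟩)
      · refine ⟨⟨z, h1⟩, ?_, rfl⟩
        rw [mem_N, ct_adj]
        exact ⟨fun h4 => h2.ne (congrArg Subtype.val h4), Or.inl h2⟩
      · refine ⟨⟨z, h2.ne'⟩, ?_, rfl⟩
        rw [mem_N, ct_adj]
        exact ⟨fun h4 => h1 (congrArg Subtype.val h4).symm, Or.inr (Or.inl ⟨rfl, h2⟩)⟩
  have e2 : (N G x).erase y ∩ (N G y).erase x = N G x ∩ N G y := by
    ext z
    rw [mem_inter, mem_inter, mem_erase, mem_erase, mem_N, mem_N]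
    exact ⟨fun h1 => ⟨h1.1.2, h1.2.2⟩, fun h1 => ⟨⟨h1.2.ne', h1.1⟩, ⟨h1.1.ne', h1.2⟩⟩⟩
  have c1 := card_image_of_injective (N (ct G x y) ⟨x, h.ne⟩) Subtype.val_injective
  have c2 := card_union_add_card_inter ((N G x).erase y) ((N G y).erase x)
  have m1 : y ∈ N G x := mem_N.2 h
  have m2 : x ∈ N G y := mem_N.2 h.symm
  have c3 := card_erase_of_mem m1
  have c4 := card_erase_of_mem m2
  have c5 : 0 < (N G x).card := card_pos.2 ⟨_, m1⟩
  have c6 : 0 < (N G y).card := card_pos.2 ⟨_, m2⟩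
  rw [e] at c1
  rw [e2] at c2
  omega

theorem card_o (h : G.Adj x y) (z : {z : V // z ≠ y}) (hz : z.1 ≠ x) :
    ((N (ct G x y) z).card : ℤ) =
      (N G z.1).card - (if z.1 ∈ N G x ∩ N G y then 1 else 0) := by
  have c1 := card_image_of_injective (N (ct G x y) z) Subtype.val_injective
  by_cases hy : G.Adj z.1 y
  · have e : (N (ct G x y) z).image Subtype.val = insert x ((N G z.1).erase y) := by
      ext w
      rw [mem_image, mem_insert, mem_erase, mem_N]
      constructor
      · rintro ⟨w, hw, rfl⟩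
        rw [mem_N, ct_adj] at hw
        obtain ⟨h1, h2 | ⟨h2, _⟩ | ⟨h2, h3⟩⟩ := hw
        · exact Or.inr ⟨w.2, h2⟩
        · exact absurd h2 hz
        · exact Or.inl h2
      · rintro (rfl | ⟨h1, h2⟩)
        · refine ⟨⟨w, h.ne⟩, ?_, rfl⟩
          rw [mem_N, ct_adj]
          exact ⟨fun h4 => hz (congrArg Subtype.val h4), Or.inr (Or.inr ⟨rfl, hy.symm⟩)⟩
        · refine ⟨⟨w, h1⟩, ?_, rfl⟩
          rw [mem_N, ct_adj]
          exact ⟨fun h4 => h2.ne (congrArg Subtype.val h4), Or.inl h2⟩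
    have m1 : y ∈ N G z.1 := mem_N.2 hy
    have c3 := card_erase_of_mem m1
    have c5 : 0 < (N G z.1).card := card_pos.2 ⟨_, m1⟩
    rw [e] at c1
    by_cases hx : G.Adj z.1 x
    · have m2 : x ∈ (N G z.1).erase y := mem_erase.2 ⟨h.ne, mem_N.2 hx⟩
      rw [insert_eq_of_mem m2] at c1
      have m3 : z.1 ∈ N G x ∩ N G y := by
        rw [mem_inter, mem_N, mem_N]
        exact ⟨hx.symm, hy.symm⟩
      rw [if_pos m3]
      omega
    · have m2 : x ∉ (N G z.1).erase y := fun h4 => hx (mem_N.1 (mem_erase.1 h4).2)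
      rw [card_insert_of_notMem m2] at c1
      have m3 : z.1 ∉ N G x ∩ N G y := by
        rw [mem_inter, mem_N, mem_N]
        exact fun h4 => hx h4.1.symm
      rw [if_neg m3]
      omega
  · have e : (N (ct G x y) z).image Subtype.val = N G z.1 := by
      ext w
      rw [mem_image, mem_N]
      constructor
      · rintro ⟨w, hw, rfl⟩
        rw [mem_N, ct_adj] at hw
        obtain ⟨h1, h2 | ⟨h2, _⟩ | ⟨h2, h3⟩⟩ := hw
        · exact h2
        · exact absurd h2 hz
        · exact absurd h3.symm hy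
      · intro h2
        refine ⟨⟨w, fun h3 => hy (h3 ▸ h2)⟩, ?_, rfl⟩
        rw [mem_N, ct_adj]
        exact ⟨fun h4 => h2.ne (congrArg Subtype.val h4), Or.inl h2⟩
    have m3 : z.1 ∉ N G x ∩ N G y := by
      rw [mem_inter, mem_N, mem_N]
      exact fun h4 => hy h4.2.symm
    rw [e] at c1
    rw [if_neg m3]
    omega

end

theorem CTE : St_CTE := by
  intro V _ _ G x y h
  obtain ⟨f, hf⟩ : ∃ f : V → ℤ, f = fun z => if z = x then
      ((N G x).card : ℤ) + (N G y).card - 2 - (N G x ∩ N G y).card else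
      ((N G z).card : ℤ) - (if z ∈ N G x ∩ N G y then 1 else 0) := ⟨_, rfl⟩
  have h1 : E2 (ct G x y) = ∑ z : {z : V // z ≠ y}, f z.1 := by
    unfold E2
    refine sum_congr rfl fun z _ => ?_
    rw [hf]
    by_cases hz : z.1 = x
    · have e : z = ⟨x, h.ne⟩ := Subtype.ext hz
      simp only [hz, if_true]
      rw [e]
      exact card_x h
    · simp only [hz, if_false]
      exact card_o h z hz
  have h2 : ∑ z ∈ univ.erase y, f z = ∑ z : {z : V // z ≠ y}, f z.1 :=
    sum_subtype (univ.erase y) (fun z => by simp) f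
  have mx : x ∈ (univ : Finset V).erase y := mem_erase.2 ⟨h.ne, mem_univ _⟩
  have h3 := add_sum_erase (univ.erase y) f mx
  have h4 := add_sum_erase (univ.erase y) (fun z => ((N G z).card : ℤ)) mx
  have h5 := add_sum_erase (univ : Finset V) (fun z => ((N G z).card : ℤ)) (mem_univ y)
  have h6 : ∑ z ∈ (univ.erase y).erase x, f z = ∑ z ∈ (univ.erase y).erase x, ((N G z).card : ℤ) -
      ((N G x ∩ N G y).card : ℤ) := by
    have h7 : ∑ z ∈ (univ.erase y).erase x, f z = ∑ z ∈ (univ.erase y).erase x,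
        (((N G z).card : ℤ) - (if z ∈ N G x ∩ N G y then 1 else 0)) := by
      refine sum_congr rfl fun z hz => ?_
      rw [mem_erase] at hz
      rw [hf]
      simp only [hz.1, if_false]
    rw [h7, sum_sub_distrib]
    congr 1
    rw [← sum_filter, sum_const, nsmul_eq_mul, mul_one]
    have h8 : ((univ.erase y).erase x).filter (fun z => z ∈ N G x ∩ N G y) = N G x ∩ N G y := by
      ext z
      rw [mem_filter, mem_erase, mem_erase]
      constructor
      · exact fun h9 => h9.2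
      · intro h9
        have h10 := h9
        rw [mem_inter, mem_N, mem_N] at h10
        exact ⟨⟨h10.1.ne', h10.2.ne', mem_univ _⟩, h9⟩
    rw [h8]
  have h7 : f x = ((N G x).card : ℤ) + (N G y).card - 2 - (N G x ∩ N G y).card := by
    rw [hf]
    simp
  have h8 : E2 G = ∑ z, ((N G z).card : ℤ) := rfl
  rw [h1, ← h2, ← h3, h6, h7, h8, ← h5, ← h4]
  ring

end Pool.Agent.L0h60.MD
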