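import Pool.Agent.L0h99.MN.Stm2

/-!
# Project MD (helper99): the module CTK, by helper60

A `K_6` minor of a contraction is one of the graph.
-/

set_option autoImplicit false
set_option linter.all false

namespace Pool.Agent.L0h60.MD

open Finset Pool.Agent.L0h99.MN Pool.Agent.L0h99.MD

section

variable {V : Type} [Fintype V] [DecidableEq V] {G : SimpleGraph V} {x y : V}

/-- The retraction which maps `y` to `x`. -/
def rt (h : x ≠ y) (z : V) : {z : V // z ≠ y} := if hz : z = y then ⟨x, h⟩ else ⟨z, hz⟩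

theorem rt_val (h : x ≠ y) (a : {z : V // z ≠ y}) : rt h a.1 = a := by
  unfold rt
  rw [dif_neg a.2]

theorem rt_y (h : x ≠ y) : rt h y = ⟨x, h⟩ := by
  unfold rt
  rw [dif_pos rfl]

theorem ct_uv (h : x ≠ y) {a b : {z : V // z ≠ y}} (hab : (ct G x y).Adj a b) :
    ∃ u v, rt h u = a ∧ rt h v = b ∧ G.Adj u v := by
  obtain ⟨_, h1 | ⟨h1, h2⟩ | ⟨h1, h2⟩⟩ := hab
  · exact ⟨a.1, b.1, rt_val h a, rt_val h b, h1⟩
  · exact ⟨y, b.1, by rw [rt_y]; exact Subtype.ext h1.symm, rt_val h b, h2⟩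
  · exact ⟨a.1, y, rt_val h a, by rw [rt_y]; exact Subtype.ext h1.symm, h2.symm⟩

/-- The preimage of a branch set. -/
def pre (h : x ≠ y) (B : Finset {z : V // z ≠ y}) : Finset V := univ.filter (fun z => rt h z ∈ B)

theorem mem_pre {h : x ≠ y} {B : Finset {z : V // z ≠ y}} {z : V} : z ∈ pre h B ↔ rt h z ∈ B := by
  unfold pre
  rw [mem_filter]
  exact ⟨fun h => h.2, fun h => ⟨mem_univ _, h⟩⟩

theorem cn_pre (hxy : G.Adj x y) {B : Finset {z : V // z ≠ y}} (hB : Cn (ct G x y) B) :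
    Cn G (pre hxy.ne B) := by
  obtain ⟨⟨a, ha⟩, hc⟩ := hB
  refine ⟨⟨a.1, ?_⟩, fun X hX hX0 hXB => ?_⟩
  · rw [mem_pre, rt_val]
    exact ha
  by_cases hs : x ∈ X ↔ y ∈ X
  · have hr : ∀ z, (rt hxy.ne z).1 ∈ X ↔ z ∈ X := by
      intro z
      by_cases hz : z = y
      · rw [hz, rt_y]
        exact hs
      · have e : (rt hxy.ne z).1 = z := by
          unfold rt
          rw [dif_neg hz]
        rw [e]
    obtain ⟨X', hX'⟩ : ∃ X' : Finset {z : V // z ≠ y}, X' = B.filter (fun a => a.1 ∈ X) := ⟨_, rfl⟩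
    have hm : ∀ z, z ∈ X ↔ rt hxy.ne z ∈ X' := by
      intro z
      rw [hX', mem_filter]
      exact ⟨fun h => ⟨mem_pre.1 (hX h), (hr z).2 h⟩, fun h => (hr z).1 h.2⟩
    obtain ⟨z, hz⟩ := hX0
    obtain ⟨a, ha, b, hb, hab⟩ := hc X' (by rw [hX']; exact filter_subset _ _) ⟨_, (hm z).1 hz⟩ (by
      intro h
      apply hXB
      ext z
      rw [hm, mem_pre, h])
    obtain ⟨u, v, hu, hv, huv⟩ := ct_uv hxy.ne hab
    rw [mem_sdiff] at hb
    refine ⟨u, (hm u).2 (by rw [hu]; exact ha), v, ?_, huv⟩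
    rw [mem_sdiff, mem_pre, hm, hv]
    exact hb
  · have hx2 : rt hxy.ne x = ⟨x, hxy.ne⟩ := rt_val hxy.ne ⟨x, hxy.ne⟩
    by_cases hx : x ∈ X
    · have hy : y ∉ X := fun hy => hs ⟨fun _ => hy, fun _ => hx⟩
      refine ⟨x, hx, y, ?_, hxy⟩
      rw [mem_sdiff, mem_pre, rt_y, ← hx2, ← mem_pre]
      exact ⟨hX hx, hy⟩
    · have hy : y ∈ X := by
        by_contra hy
        exact hs ⟨fun h => absurd h hx, fun h => absurd h hy⟩
      refine ⟨y, hy, x, ?_, hxy.symm⟩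
      rw [mem_sdiff, mem_pre, hx2, ← rt_y, ← mem_pre]
      exact ⟨hX hy, hx⟩

end

theorem CTK : St_CTK := by
  intro V _ _ G x y hxy hK
  obtain ⟨B, h1, h2, h3⟩ := hK
  refine ⟨fun i => pre hxy.ne (B i), fun i => cn_pre hxy (h1 i), fun i j hij => ?_,
    fun i j hij => ?_⟩
  · rw [Finset.disjoint_left]
    intro z hz hz'
    exact Finset.disjoint_left.1 (h2 i j hij) (mem_pre.1 hz) (mem_pre.1 hz')
  · obtain ⟨a, ha, b, hb, hab⟩ := h3 i j hij
    obtain ⟨u, v, hu, hv, huv⟩ := ct_uv hxy.ne hab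
    exact ⟨u, mem_pre.2 (by rw [hu]; exact ha), v, mem_pre.2 (by rw [hv]; exact hb), huv⟩

end Pool.Agent.L0h60.MD
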